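import Pool.Agent.ODR61.Main

/-!
# The graphs on four vertices with online degree-Ramsey number at most four

The game is `Pool.Agent.ODR61.BuilderWins` (file `Pool/Agent/ODR61/Game.lean`).
-/

set_option autoImplicit false

namespace Pool.Agent.Results.MP_f9927c_co.FourVertices

open Pool.Agent.ODR61

/-- Let `G` be a graph on four vertices (isolated vertices allowed). There is a `k ≤ 4` such that
Builder wins the game with goal `G` in the class of the graphs of maximum degree at most `k`,
starting from the empty graph, if and only if no two adjacent vertices of `G` both have degree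
at least three. -/
theorem result (G : SimpleGraph (Fin 4)) :
    (∃ k ≤ 4, BuilderWins G (MaxDegreeLE k) ⊥ ⊥) ↔
      ¬ ∃ u v, G.Adj u v ∧ 3 ≤ (G.neighborSet u).encard ∧ 3 ≤ (G.neighborSet v).encard :=
  main G

end Pool.Agent.Results.MP_f9927c_co.FourVertices
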